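import Pool.Agent.SCT.StmtsP

/-!
# SCT, row CXI: choice of the hyperplane
-/

set_option autoImplicit false

namespace Pool.Agent.SCT.H71

open MvPolynomial

/-- the matrix `N` of linear forms -/
noncomputable def nmP (E : Type) [Field E]
    (m : Fin (4 + 2) → Matrix (Fin (4 + 2)) (Fin (4 + 2)) E) :
    Matrix (Fin (4 + 2)) (Fin (4 + 2)) (MvPolynomial (Fin (4 + 2)) E) :=
  Matrix.of fun i k => ∑ j, C (m k i j) * X j

theorem nmP_map (E : Type) [Field E] (m : Fin (4 + 2) → Matrix (Fin (4 + 2)) (Fin (4 + 2)) E)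
    {Ω : Type} [Field Ω] [Algebra E Ω] (v : Fin (4 + 2) → Ω) :
    (aeval v : MvPolynomial (Fin (4 + 2)) E →ₐ[E] Ω).mapMatrix (nmP E m) = nm E m v := by
  ext i k
  rw [AlgHom.mapMatrix_apply, Matrix.map_apply]
  show aeval v (∑ j, C (m k i j) * X j) = ∑ j, algebraMap E Ω (m k i j) * v j
  rw [map_sum]
  apply Finset.sum_congr rfl
  intro j _
  rw [map_mul, aeval_X, aeval_C]

theorem adj_entry (E : Type) [Field E] (m : Fin (4 + 2) → Matrix (Fin (4 + 2)) (Fin (4 + 2)) E)
    {Ω : Type} [Field Ω] [Algebra E Ω] (v : Fin (4 + 2) → Ω) (i k : Fin (4 + 2)) :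
    (nm E m v).adjugate i k = aeval v ((nmP E m).adjugate i k) := by
  rw [← nmP_map E m v, ← AlgHom.map_adjugate, AlgHom.mapMatrix_apply, Matrix.map_apply]

theorem cxi (hPDT : PdtStmt) (hGRK : GrkStmt) : CxiStmt := by
  intro E _ _ f m c hf hns hPf
  have hinf : Infinite E := IsAlgClosed.instInfinite
  have hG0 := hGRK E f m c hf hns hPf
  obtain ⟨i, k, hik⟩ : ∃ i k, (nm E m (gen E 4)).adjugate i k ≠ 0 := by
    by_contra hcon
    push Not at hcon
    apply hG0
    ext i k
    rw [hcon i k]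
    rfl
  rw [adj_entry] at hik
  obtain ⟨G, hG⟩ : ∃ G, G = (nmP E m).adjugate i k := ⟨_, rfl⟩
  rw [← hG] at hik
  have hGne : G ≠ 0 := by
    rintro rfl
    exact hik (map_zero _)
  have hfne : f ≠ 0 := hns.ne_zero
  have hdet : IsUnit (pm E m (gen E 4)).det := by
    rw [isUnit_iff_ne_zero, hPDT E f m c hPf]
    apply mul_ne_zero
    · intro h
      exact hPf.ne ((map_eq_zero _).1 h)
    · exact pow_ne_zero 2 (aeval_gen_ne hfne)
  obtain ⟨Q, hQ⟩ : ∃ Q, Q = (pm E m (gen E 4))⁻¹ := ⟨_, rfl⟩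
  have hQ1 : pm E m (gen E 4) * Q = 1 := by
    rw [hQ]
    exact Matrix.mul_nonsing_inv _ hdet
  have hQ2 : Q * pm E m (gen E 4) = 1 := by
    rw [hQ]
    exact Matrix.nonsing_inv_mul _ hdet
  obtain ⟨ξ, hξ⟩ : ∃ ξ : Fin (4 + 2) → E,
      aeval (Q.mulVec fun i => algebraMap E (FT E 4) (ξ i)) G ≠ 0 := by
    by_contra hcon
    push Not at hcon
    obtain ⟨H, hH⟩ : ∃ H : MvPolynomial (Fin (4 + 2)) (FT E 4),
        ∀ Y : Fin (4 + 2) → FT E 4, eval Y H = aeval (Q.mulVec Y) G := by
      refine ⟨aeval (fun i => ∑ j, C (Q i j) * X j) G, fun Y => ?_⟩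
      have e : ((eval Y).comp (aeval (fun i => ∑ j, C (Q i j) * X j) :
          MvPolynomial (Fin (4 + 2)) E →ₐ[E] MvPolynomial (Fin (4 + 2)) (FT E 4)).toRingHom) =
          (aeval (Q.mulVec Y) : MvPolynomial (Fin (4 + 2)) E →ₐ[E] FT E 4).toRingHom := by
        apply MvPolynomial.ringHom_ext
        · intro r
          show eval Y (aeval _ (C r)) = aeval _ (C r)
          rw [aeval_C, aeval_C, IsScalarTower.algebraMap_apply E (FT E 4)
            (MvPolynomial (Fin (4 + 2)) (FT E 4)), MvPolynomial.algebraMap_eq, eval_C]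
        · intro l
          show eval Y (aeval _ (X l)) = aeval _ (X l)
          rw [aeval_X, aeval_X, map_sum]
          show ∑ j, eval Y (C (Q l j) * X j) = ∑ j, Q l j * Y j
          apply Finset.sum_congr rfl
          intro j _
          rw [map_mul, eval_C, eval_X]
      exact RingHom.congr_fun e G
    have hH0 : H = 0 := by
      apply MvPolynomial.funext_set (fun _ => Set.range (algebraMap E (FT E 4)))
        (fun _ => Set.infinite_range_of_injective (algebraMap E (FT E 4)).injective)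
      intro Y hY
      rw [map_zero, hH]
      have hY' : ∀ l, ∃ e : E, algebraMap E (FT E 4) e = Y l := fun l => hY l (Set.mem_univ l)
      choose e he using hY'
      have : Y = fun i => algebraMap E (FT E 4) (e i) := funext fun l => (he l).symm
      rw [this]
      exact hcon e
    apply hGne
    apply MvPolynomial.funext
    intro e
    rw [map_zero]
    have h1 := hH ((pm E m (gen E 4)).mulVec fun i => algebraMap E (FT E 4) (e i))
    rw [hH0, map_zero, Matrix.mulVec_mulVec, hQ2, Matrix.one_mulVec] at h1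
    have h2 : aeval (fun i => algebraMap E (FT E 4) (e i)) G =
        algebraMap E (FT E 4) (eval e G) := by
      have := aeval_algebraMap_apply (FT E 4) e G
      rw [← MvPolynomial.coe_aeval_eq_eval]
      exact this
    rw [h2] at h1
    exact (map_eq_zero _).1 h1.symm
  refine ⟨ξ, Q.mulVec fun i => algebraMap E (FT E 4) (ξ i), ?_, ?_, ?_⟩
  · rintro rfl
    apply hξ
    have h0 : (Q.mulVec fun i => algebraMap E (FT E 4) ((0 : Fin (4 + 2) → E) i)) = 0 := by
      have : (fun i => algebraMap E (FT E 4) ((0 : Fin (4 + 2) → E) i)) = 0 := by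
        funext i
        exact map_zero _
      rw [this, Matrix.mulVec_zero]
    rw [h0, hG, ← adj_entry]
    have h1 : nm E m (0 : Fin (4 + 2) → FT E 4) = 0 := by
      ext i k
      simp only [nm, Matrix.of_apply, Pi.zero_apply, mul_zero, Finset.sum_const_zero,
        Matrix.zero_apply]
    rw [h1, Matrix.adjugate_zero]
    rfl
  · rw [Matrix.mulVec_mulVec, hQ1, Matrix.one_mulVec]
  · intro h
    apply hξ
    rw [hG, ← adj_entry, h]
    rfl

end Pool.Agent.SCT.H71
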